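import Mathlib
import Pool.Agent.Lib.helper26.CRate

namespace Pool.Agent.Results.MP_e3a9f0_pr.NoRate

/-- upper probability function `F x = Pr(X ⊇ x)` of the density `f` -/
noncomputable def upper (f : Finset ℕ+ → ℝ) (x : Finset ℕ+) : ℝ :=
  ∑' y : {y : Finset ℕ+ // x ⊆ y}, f y

theorem result : ¬ ∃ (f : Finset ℕ+ → ℝ) (α : ℝ),
    (∀ x, 0 < f x) ∧ HasSum f 1 ∧ ∀ x, f x = α * upper f x := by
  rintro ⟨f, α, hf, hs, h⟩
  have hα : 0 ≤ α := by
    by_contra hneg
    have h0 : 0 ≤ upper f ∅ := tsum_nonneg fun y => (hf _).le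
    have := h ∅
    have := hf ∅
    nlinarith
  exact (hf {1}).ne' (Pool.Agent.Lib.helper26.CRate.no_rate f α (fun x => (hf x).le)
    hs.summable hα h 1)

end Pool.Agent.Results.MP_e3a9f0_pr.NoRate
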